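import Pool.Agent.W861.TF.Stm

/-!
Project TF: averaging over short directions inside `P + P`.
-/

set_option autoImplicit false

open scoped Pointwise

namespace Pool.Agent.W930.TF

open Pool.Agent.W861.TF

theorem prog_finite {G : Type*} [AddCommGroup G] {d : ℕ} (a : G) (v : Fin d → G)
    (N : Fin d → ℕ) : (prog a v N).Finite := by
  classical
  refine Set.Finite.subset (((Fintype.piFinset fun i => Finset.range (N i)).image
    (fun k : Fin d → ℕ => a + ∑ i, k i • v i)).finite_toSet) ?_
  rintro x ⟨k, hk, rfl⟩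
  rw [Finset.mem_coe, Finset.mem_image]
  exact ⟨k, by simpa [Fintype.mem_piFinset] using hk, rfl⟩

theorem add_cube_mem {G : Type*} [AddCommGroup G] {ι : Type*} [Fintype ι] {d : ℕ} (a : G)
    (v : Fin d → G) (N : Fin d → ℕ) (J : ι → Fin d) (hJ : Function.Injective J)
    (hN : ∀ i, 2 ≤ N (J i)) (hne : ∀ j, 1 ≤ N j) (ε : ι → Fin 2) :
    a + ∑ i, ((ε i : ℕ) : ℤ) • v (J i) ∈ prog a v N := by
  classical
  refine ⟨fun j => ∑ i, if J i = j then (ε i : ℕ) else 0, fun j => ?_, ?_⟩
  · by_cases h : ∃ i, J i = j
    · obtain ⟨i0, rfl⟩ := h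
      have h1 : ∑ i, (if J i = J i0 then (ε i : ℕ) else 0) = (ε i0 : ℕ) := by
        rw [Finset.sum_eq_single i0]
        · simp
        · intro i _ hi
          rw [if_neg fun h => hi (hJ h)]
        · intro h
          exact absurd (Finset.mem_univ _) h
      simp only
      rw [h1]
      exact lt_of_lt_of_le (ε i0).2 (hN i0)
    · push Not at h
      have h1 : ∑ i, (if J i = j then (ε i : ℕ) else 0) = 0 :=
        Finset.sum_eq_zero fun i _ => if_neg (h i)
      simp only
      rw [h1]
      exact hne j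
  · congr 1
    simp only [Finset.sum_smul]
    rw [Finset.sum_comm]
    refine Finset.sum_congr rfl fun i _ => ?_
    rw [Finset.sum_eq_single (J i)]
    · rw [if_pos rfl, natCast_zsmul]
    · intro j _ hj
      rw [if_neg (Ne.symm hj), zero_smul]
    · intro h
      exact absurd (Finset.mem_univ _) h

theorem avg3 : S_AVG3 := by
  classical
  intro G _ ι _ d a v N J F hJ hN hF
  set b : (ι → Fin 2) → G := fun ε => ∑ i, ((ε i : ℕ) : ℤ) • v (J i) with hb
  rcases F.eq_empty_or_nonempty with hF0 | hF0
  · exact ⟨0, by rw [hF0]; simp⟩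
  set P := prog a v N with hP
  have hPf : P.Finite := prog_finite a v N
  have hne : ∀ j, 1 ≤ N j := by
    obtain ⟨f, hf⟩ := hF0
    obtain ⟨k, hk, -⟩ := hF (Finset.mem_coe.2 hf)
    intro j
    have := hk j
    omega
  set W : Finset (G × (ι → Fin 2)) := F ×ˢ (Finset.univ : Finset (ι → Fin 2)) with hW
  set g : G × (ι → Fin 2) → G := fun x => x.1 + b x.2 with hg
  have hYcard : (W.image g).card ≤ (P + P).ncard := by
    rw [← Set.ncard_coe_finset]
    refine Set.ncard_le_ncard_of_injOn (fun y => a + y) ?_ ?_ (hPf.add hPf)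
    · intro y hy
      rw [Finset.mem_coe, Finset.mem_image] at hy
      obtain ⟨x, hx, rfl⟩ := hy
      rw [hW, Finset.mem_product] at hx
      have h1 : x.1 ∈ P := hF (Finset.mem_coe.2 hx.1)
      have h2 : a + b x.2 ∈ P := add_cube_mem a v N J hJ hN hne x.2
      have h3 : a + g x = x.1 + (a + b x.2) := by
        simp only [hg]
        abel
      rw [h3]
      exact Set.add_mem_add h1 h2
    · intro y _ y' _ h
      exact add_left_cancel h
  have hWne : W.Nonempty := by
    rw [hW]
    exact hF0.product ⟨fun _ => 0, Finset.mem_univ _⟩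
  obtain ⟨y, hy, hmax⟩ := Finset.exists_max_image (W.image g)
    (fun y => (W.filter fun x => g x = y).card) (hWne.image g)
  refine ⟨y, ?_⟩
  have h1 := Finset.card_le_mul_card_image (f := g) W
    ((W.filter fun x => g x = y).card) (fun y' hy' => hmax y' hy')
  have h2 : W.card = F.card * 2 ^ Fintype.card ι := by
    rw [hW, Finset.card_product, Finset.card_univ, Fintype.card_fun, Fintype.card_fin]
  have h3 : (W.filter fun x => g x = y).card ≤
      Set.ncard {ε : ι → Fin 2 | y - ∑ i, ((ε i : ℕ) : ℤ) • v (J i) ∈ F} := by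
    rw [← Set.ncard_coe_finset]
    refine Set.ncard_le_ncard_of_injOn (fun x => x.2) ?_ ?_ (Set.toFinite _)
    · intro x hx
      rw [Finset.mem_coe, Finset.mem_filter, hW, Finset.mem_product] at hx
      obtain ⟨⟨hx1, -⟩, hx2⟩ := hx
      have h4 : y - b x.2 = x.1 := by
        rw [← hx2]
        simp only [hg]
        abel
      change y - b x.2 ∈ F
      rw [h4]
      exact hx1
    · intro x hx x' hx' h
      rw [Finset.mem_coe, Finset.mem_filter] at hx hx'
      simp only at h
      have h4 := hx.2.trans hx'.2.symm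
      simp only [hg] at h4
      rw [h] at h4
      exact Prod.ext (add_right_cancel h4) h
  rw [← h2]
  calc W.card ≤ (W.filter fun x => g x = y).card * (W.image g).card := h1
    _ ≤ Set.ncard {ε : ι → Fin 2 | y - ∑ i, ((ε i : ℕ) : ℤ) • v (J i) ∈ F} *
        (P + P).ncard := Nat.mul_le_mul h3 hYcard
    _ = _ := by rw [mul_comm]

end Pool.Agent.W930.TF
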